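import Pool.Agent.W810.SYN.Stm

/-!
# `S_CLS`: idempotents of the Rudin classes
-/

set_option autoImplicit false

namespace Pool.Agent.W545.SYN.CLS

open MeasureTheory AddCircle Filter Topology Pool.Agent.Results.MP_535799_an.NonSidon
open Pool.Agent.W810.SYN

noncomputable section

lemma ext_coeff {f g : L1} (h : ∀ n, coeff f n = coeff g n) : f = g := by
  rw [← sub_eq_zero]
  apply eq_zero_of_coeff
  intro n
  rw [coeff_sub, h n, sub_self]

/-- trigonometric polynomials are dense -/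
lemma exists_poly (s : L1) {ε : ℝ} (hε : 0 < ε) :
    ∃ h : L1, {n : ℤ | coeff h n ≠ 0}.Finite ∧ ‖s - h‖ < ε := by
  have htop : s ∈ (Submodule.span ℂ (Set.range (@fourierLp (2 * Real.pi) _ 1 _))).topologicalClosure := by
    rw [span_fourierLp_closure_eq_top (by norm_num)]
    trivial
  have hcl : s ∈ closure (Submodule.span ℂ (Set.range (@fourierLp (2 * Real.pi) _ 1 _)) : Set L1) :=
    htop
  obtain ⟨h, hh, hd⟩ := Metric.mem_closure_iff.1 hcl ε hε
  refine ⟨h, ?_, by rwa [dist_eq_norm] at hd⟩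
  clear hd
  have hh' : h ∈ Submodule.span ℂ (Set.range (@fourierLp (2 * Real.pi) _ 1 _)) := hh
  clear hh
  induction hh' using Submodule.span_induction with
  | mem x hx =>
    obtain ⟨n, rfl⟩ := hx
    refine (Set.finite_singleton n).subset ?_
    intro m hm
    have hm' : coeff (fourierLp 1 n) m ≠ 0 := hm
    rw [coeff_fourierLp] at hm'
    by_contra hne
    apply hm'
    have hne' : ¬ m = n := hne
    rw [if_neg hne']
  | zero =>
    refine Set.finite_empty.subset ?_
    intro m hm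
    exact (hm (coeff_zero m)).elim
  | add x y _ _ hx hy =>
    refine (hx.union hy).subset ?_
    intro m hm
    by_contra hne
    apply hm
    have h1 : coeff x m = 0 := by
      by_contra h
      exact hne (Or.inl h)
    have h2 : coeff y m = 0 := by
      by_contra h
      exact hne (Or.inr h)
    rw [coeff_add, h1, h2, add_zero]
  | smul a x _ hx =>
    refine hx.subset ?_
    intro m hm h
    apply hm
    rw [coeff_smul, h, mul_zero]

/-- convolution powers -/
def cp (s : L1) : ℕ → L1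
  | 0 => s
  | j + 1 => conv s (cp s j)

lemma coeff_cp (s : L1) (j : ℕ) (n : ℤ) : coeff (cp s j) n = coeff s n ^ (j + 1) := by
  induction j with
  | zero => simp [cp]
  | succ j ih =>
    rw [cp, coeff_conv, ih]
    ring

/-- if all the coefficients have modulus `≤ 1/4` the convolution powers tend to `0` -/
lemma cp_tendsto (s : L1) (hs : ∀ n, ‖coeff s n‖ ≤ 1 / 4) :
    Tendsto (fun j => ‖cp s j‖) atTop (𝓝 0) := by
  obtain ⟨h, hfin, hh⟩ := exists_poly s (show (0 : ℝ) < 1 / 4 by norm_num)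
  have hsum : Summable (fun n => ‖coeff h n‖ ^ 2) := by
    apply summable_of_ne_finset_zero (s := hfin.toFinset)
    intro n hn
    have : coeff h n = 0 := by
      by_contra h1
      apply hn
      simpa using h1
    rw [this]
    simp
  set B : ℝ := Real.sqrt (∑' n, ‖coeff h n‖ ^ 2) with hB
  have hB0 : 0 ≤ B := Real.sqrt_nonneg _
  have hB2 : B ^ 2 = ∑' n, ‖coeff h n‖ ^ 2 := Real.sq_sqrt (tsum_nonneg fun n => by positivity)
  have h1 : ∀ j, ‖conv h (cp s j)‖ ≤ (1 / 4) ^ (j + 1) * B := by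
    intro j
    have hpt : ∀ n, ‖coeff (conv h (cp s j)) n‖ ^ 2 ≤ ((1 / 4 : ℝ) ^ (j + 1)) ^ 2 * ‖coeff h n‖ ^ 2 := by
      intro n
      rw [coeff_conv, coeff_cp, norm_mul, norm_pow, ← mul_pow]
      apply pow_le_pow_left₀ (by positivity)
      rw [mul_comm]
      exact mul_le_mul_of_nonneg_right (pow_le_pow_left₀ (norm_nonneg _) (hs n) _) (norm_nonneg _)
    have hs2 : Summable (fun n => ‖coeff (conv h (cp s j)) n‖ ^ 2) :=
      Summable.of_nonneg_of_le (fun n => by positivity) hpt (hsum.mul_left _)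
    apply norm_le_of_coeff _ hs2 _ (by positivity)
    calc ∑' n, ‖coeff (conv h (cp s j)) n‖ ^ 2
        ≤ ∑' n, ((1 / 4 : ℝ) ^ (j + 1)) ^ 2 * ‖coeff h n‖ ^ 2 := hs2.tsum_le_tsum hpt (hsum.mul_left _)
      _ = ((1 / 4 : ℝ) ^ (j + 1)) ^ 2 * B ^ 2 := by rw [tsum_mul_left, hB2]
      _ = ((1 / 4) ^ (j + 1) * B) ^ 2 := by ring
  have h2 : ∀ j, ‖cp s (j + 1)‖ ≤ (1 / 4) ^ (j + 1) * B + 1 / 4 * ‖cp s j‖ := by
    intro j
    have h3 : cp s (j + 1) = conv h (cp s j) + conv (s - h) (cp s j) := by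
      apply ext_coeff
      intro n
      rw [cp, coeff_add, coeff_conv, coeff_conv, coeff_conv, coeff_sub]
      ring
    rw [h3]
    refine (norm_add_le _ _).trans (add_le_add (h1 j) ?_)
    refine (norm_conv_le _ _).trans ?_
    exact mul_le_mul_of_nonneg_right hh.le (norm_nonneg _)
  have h3 : ∀ j, ‖cp s j‖ ≤ (1 / 2) ^ j * (‖s‖ + B) := by
    intro j
    induction j with
    | zero =>
      have : cp s 0 = s := rfl
      rw [this]
      simp only [pow_zero, one_mul]
      linarith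
    | succ j ih =>
      have hn := norm_nonneg s
      have e1 : (1 / 4 : ℝ) ^ (j + 1) ≤ (1 / 2) ^ (j + 1) * (1 / 2) := by
        have : (1 / 4 : ℝ) = 1 / 2 * (1 / 2) := by norm_num
        rw [this, mul_pow]
        apply mul_le_mul_of_nonneg_left _ (by positivity)
        rw [pow_succ]
        have : (1 / 2 : ℝ) ^ j ≤ 1 := pow_le_one₀ (by norm_num) (by norm_num)
        linarith
      calc ‖cp s (j + 1)‖ ≤ (1 / 4) ^ (j + 1) * B + 1 / 4 * ‖cp s j‖ := h2 j
        _ ≤ (1 / 2) ^ (j + 1) * (1 / 2) * B + 1 / 4 * ((1 / 2) ^ j * (‖s‖ + B)) :=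
            add_le_add (mul_le_mul_of_nonneg_right e1 hB0) (by linarith)
        _ = (1 / 2) ^ (j + 1) * ((1 / 2) * B + 1 / 2 * (‖s‖ + B)) := by rw [pow_succ]; ring
        _ ≤ (1 / 2) ^ (j + 1) * (‖s‖ + B) := by
            apply mul_le_mul_of_nonneg_left _ (by positivity)
            linarith
  refine squeeze_zero (fun _ => norm_nonneg _) h3 ?_
  have := (tendsto_pow_atTop_nhds_zero_of_lt_one (r := (1 / 2 : ℝ)) (by norm_num)
    (by norm_num)).mul_const (‖s‖ + B)
  simpa using this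

lemma finite_large (hRL : S_RL) (f : L1) {ε : ℝ} (hε : 0 < ε) :
    {n : ℤ | ε ≤ ‖coeff f n‖}.Finite := by
  obtain ⟨M, hM⟩ := (hRL f).1 ε hε
  refine (Set.finite_Icc (-(M : ℤ)) M).subset ?_
  intro n hn
  have h1 : |n| < M := by
    by_contra h
    push Not at h
    exact absurd (hM n h) (not_lt.2 hn)
  rw [abs_lt] at h1
  exact ⟨h1.1.le, h1.2.le⟩

/-- level sets of arbitrary elements -/
lemma lev (hRL : S_RL) (A : Submodule ℂ L1) (hAc : IsClosed (A : Set L1))
    (hA : ∀ f ∈ A, ∀ g ∈ A, conv f g ∈ A) (f : L1) (hf : f ∈ A) (c : ℂ) (hc : c ≠ 0)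
    (S : Finset ℤ) (hS : ∀ n, n ∈ S ↔ coeff f n = c) : idem S ∈ A := by
  classical
  have hcpos : 0 < ‖c‖ := norm_pos_iff.mpr hc
  have hfin := finite_large hRL f (half_pos hcpos)
  set V : Finset ℂ := (hfin.toFinset.image (fun n => coeff f n)).erase c with hV
  set D : ℝ := ∏ v ∈ V, ((‖c‖ + ‖v‖) / ‖c - v‖) with hD
  have hD0 : 0 ≤ D := by
    rw [hD]
    exact Finset.prod_nonneg (fun v _ => by positivity)
  obtain ⟨k, hk⟩ : ∃ k : ℕ, (1 / 2 : ℝ) ^ k * D ≤ 1 / 4 := by
    have h1 := (tendsto_pow_atTop_nhds_zero_of_lt_one (r := (1 / 2 : ℝ)) (by norm_num)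
      (by norm_num)).mul_const D
    rw [zero_mul] at h1
    obtain ⟨k, hk⟩ := (h1.eventually (gt_mem_nhds (show (0 : ℝ) < 1 / 4 by norm_num))).exists
    exact ⟨k, hk.le⟩
  obtain ⟨g, hg, hgn⟩ := exists_prod A hA f hf c k V
  have g1 : ∀ n ∈ S, coeff g n = 1 := by
    intro n hn
    have hfc := (hS n).mp hn
    have h1 : ∏ v ∈ V, ((coeff f n - v) / (c - v)) = 1 := by
      apply Finset.prod_eq_one
      intro v hv
      rw [hfc]
      apply div_self
      rw [sub_ne_zero]
      exact (Finset.ne_of_mem_erase hv).symm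
    rw [hgn, h1, hfc, div_self hc]
    simp
  have g2 : ∀ n ∉ S, ‖coeff g n‖ ≤ 1 / 4 := by
    intro n hn
    have hne : coeff f n ≠ c := fun h => hn ((hS n).mpr h)
    rw [hgn]
    by_cases hbig : ‖c‖ / 2 ≤ ‖coeff f n‖
    · have hmem : coeff f n ∈ V := by
        rw [hV, Finset.mem_erase]
        refine ⟨hne, Finset.mem_image.mpr ⟨n, ?_, rfl⟩⟩
        simpa using hbig
      rw [Finset.prod_eq_zero hmem (by simp)]
      simp
    · push Not at hbig
      rw [norm_mul, norm_pow, norm_div, norm_prod]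
      have h1 : ∏ v ∈ V, ‖(coeff f n - v) / (c - v)‖ ≤ D := by
        apply Finset.prod_le_prod (fun v _ => norm_nonneg _)
        intro v _
        rw [norm_div]
        apply div_le_div_of_nonneg_right _ (norm_nonneg _)
        exact (norm_sub_le _ _).trans (by linarith)
      have h0 : ‖coeff f n‖ / ‖c‖ ≤ 1 / 2 := by
        rw [div_le_iff₀ hcpos]
        linarith
      have h2 : (‖coeff f n‖ / ‖c‖) ^ (k + 1) ≤ (1 / 2) ^ k := by
        rw [pow_succ]
        have h3 : (‖coeff f n‖ / ‖c‖) ^ k ≤ (1 / 2) ^ k := pow_le_pow_left₀ (by positivity) h0 k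
        have h4 : ‖coeff f n‖ / ‖c‖ ≤ 1 := by linarith
        calc (‖coeff f n‖ / ‖c‖) ^ k * (‖coeff f n‖ / ‖c‖) ≤ (1 / 2) ^ k * 1 :=
              mul_le_mul h3 h4 (by positivity) (by positivity)
          _ = _ := mul_one _
      calc (‖coeff f n‖ / ‖c‖) ^ (k + 1) * ∏ v ∈ V, ‖(coeff f n - v) / (c - v)‖
          ≤ (1 / 2) ^ k * D :=
            mul_le_mul h2 h1 (Finset.prod_nonneg (fun v _ => norm_nonneg _)) (by positivity)
        _ ≤ 1 / 4 := hk
  set s : L1 := g - idem S with hs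
  have s1 : ∀ n, ‖coeff s n‖ ≤ 1 / 4 := by
    intro n
    rw [hs, coeff_sub, coeff_idem]
    by_cases hn : n ∈ S
    · rw [if_pos hn, g1 n hn]
      simp
    · rw [if_neg hn, sub_zero]
      exact g2 n hn
  have s2 : ∀ j, cp g j = idem S + cp s j := by
    intro j
    apply ext_coeff
    intro n
    rw [coeff_add, coeff_cp, coeff_cp, hs, coeff_sub, coeff_idem]
    by_cases hn : n ∈ S
    · rw [if_pos hn, g1 n hn]
      simp
    · rw [if_neg hn, sub_zero, zero_add]
  have s3 : ∀ j, cp g j ∈ A := by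
    intro j
    induction j with
    | zero => exact hg
    | succ j ih => exact hA g hg _ ih
  have hlim : Tendsto (fun j => cp g j) atTop (𝓝 (idem S)) := by
    rw [tendsto_iff_norm_sub_tendsto_zero]
    have h1 : (fun j => ‖cp g j - idem S‖) = fun j => ‖cp s j‖ := by
      funext j
      rw [s2 j, add_sub_cancel_left]
    rw [h1]
    exact cp_tendsto s s1
  exact hAc.mem_of_tendsto hlim (Filter.Eventually.of_forall s3)

/-- level sets as finite sets -/
lemma lev' (hRL : S_RL) (A : Submodule ℂ L1) (hAc : IsClosed (A : Set L1))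
    (hA : ∀ f ∈ A, ∀ g ∈ A, conv f g ∈ A) (f : L1) (hf : f ∈ A) (m : ℤ) (hm : coeff f m ≠ 0) :
    ∃ L : Finset ℤ, (∀ n, n ∈ L ↔ coeff f n = coeff f m) ∧ idem L ∈ A := by
  have hfin : {n : ℤ | coeff f n = coeff f m}.Finite := by
    refine (finite_large hRL f (norm_pos_iff.2 hm)).subset ?_
    intro n hn
    have hn' : coeff f n = coeff f m := hn
    show ‖coeff f m‖ ≤ ‖coeff f n‖
    rw [hn']
  have hL : ∀ n, n ∈ hfin.toFinset ↔ coeff f n = coeff f m := by
    intro n
    rw [Set.Finite.mem_toFinset]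
    exact Iff.rfl
  exact ⟨hfin.toFinset, hL, lev hRL A hAc hA f hf _ hm _ hL⟩

theorem main (hRL : S_RL) : S_CLS := by
  classical
  intro A hAc hA n0 S ⟨f, hf, hf0⟩ hS
  obtain ⟨L, hL, hLA⟩ := lev' hRL A hAc hA f hf n0 hf0
  have hn0L : n0 ∈ L := (hL n0).2 rfl
  -- separation of one point
  have hsep : ∀ m ∉ S, ∃ e ∈ A, coeff e n0 = 1 ∧ coeff e m = 0 := by
    intro m hm
    rw [hS] at hm
    push Not at hm
    obtain ⟨g, hg, hgm⟩ := hm
    by_cases h0 : coeff g n0 = 0
    · have h1 : coeff g m ≠ 0 := by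
        rw [← h0]
        exact hgm
      obtain ⟨L', hL', hL'A⟩ := lev' hRL A hAc hA g hg m h1
      have hm' : m ∈ L' := (hL' m).2 rfl
      have hn' : n0 ∉ L' := by
        rw [hL']
        exact fun h => hgm h.symm
      refine ⟨idem L - conv (idem L) (idem L'), A.sub_mem hLA (hA _ hLA _ hL'A), ?_, ?_⟩
      · rw [coeff_sub, coeff_conv, coeff_idem, coeff_idem, if_pos hn0L, if_neg hn']
        ring
      · rw [coeff_sub, coeff_conv, coeff_idem, coeff_idem, if_pos hm']
        ring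
    · obtain ⟨L', hL', hL'A⟩ := lev' hRL A hAc hA g hg n0 h0
      have hn' : n0 ∈ L' := (hL' n0).2 rfl
      have hm' : m ∉ L' := by
        rw [hL']
        exact hgm
      refine ⟨idem L', hL'A, ?_, ?_⟩
      · rw [coeff_idem, if_pos hn']
      · rw [coeff_idem, if_neg hm']
  -- products
  have hprod : ∀ T : Finset ℤ, (∀ m ∈ T, m ∉ S) →
      ∃ e ∈ A, coeff e n0 = 1 ∧ (∀ m ∈ T, coeff e m = 0) ∧ ∀ m ∉ L, coeff e m = 0 := by
    intro T
    induction T using Finset.induction_on with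
    | empty =>
      intro _
      refine ⟨idem L, hLA, ?_, ?_, ?_⟩
      · rw [coeff_idem, if_pos hn0L]
      · intro m hm
        exact absurd hm (Finset.notMem_empty m)
      · intro m hm
        rw [coeff_idem, if_neg hm]
    | insert a T ha ih =>
      intro hT
      obtain ⟨e, he, h1, h2, h3⟩ := ih (fun m hm => hT m (Finset.mem_insert_of_mem hm))
      obtain ⟨e', he', h4, h5⟩ := hsep a (hT a (Finset.mem_insert_self a T))
      refine ⟨conv e e', hA _ he _ he', ?_, ?_, ?_⟩
      · rw [coeff_conv, h1, h4, one_mul]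
      · intro m hm
        rw [coeff_conv]
        rcases Finset.mem_insert.1 hm with rfl | hm
        · rw [h5, mul_zero]
        · rw [h2 m hm, zero_mul]
      · intro m hm
        rw [coeff_conv, h3 m hm, zero_mul]
  obtain ⟨e, he, h1, h2, h3⟩ := hprod (L \ S) (fun m hm => (Finset.mem_sdiff.1 hm).2)
  have heq : idem S = e := by
    apply ext_coeff
    intro n
    rw [coeff_idem]
    by_cases hn : n ∈ S
    · rw [if_pos hn, (hS n).1 hn e he, h1]
    · rw [if_neg hn]
      by_cases hnL : n ∈ L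
      · rw [h2 n (Finset.mem_sdiff.2 ⟨hnL, hn⟩)]
      · rw [h3 n hnL]
  rw [heq]
  exact he

end

end Pool.Agent.W545.SYN.CLS
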